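import Mathlib
import Pool.Agent.H23.APTest

set_option autoImplicit false

namespace Pool.Agent.Results.MP_8aa41f_lc.EveryFixedK

theorem result (C : ℝ) (D k N : ℕ) (hk : 1 ≤ k) : ∃ n : ℕ, N ≤ n ∧
      ¬ ∃ m : ℕ, (m : ℝ) ≤ C * (k : ℝ) * Real.log (n : ℝ) ∧
        ∃ T : Fin m → Finset ℕ,
          (∀ i, T i ⊆ Finset.range n ∧
            ∃ a d L : ℕ, T i = (Finset.range L).image (fun j => a + d * j)) ∧
          ∃ J : (Fin m → Bool) → Finset ℕ,
            (∀ o, (J o).card ≤ D * k) ∧
            ∀ S S' : Finset ℕ, S ⊆ Finset.range n → S' ⊆ Finset.range n →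
              S.card ≤ k → S'.card ≤ k →
              (fun i => decide (Disjoint (T i) S)) =
                (fun i => decide (Disjoint (T i) S')) →
              S ∩ J (fun i => decide (Disjoint (T i) S)) =
                S' ∩ J (fun i => decide (Disjoint (T i) S)) →
              S = S' :=
  Pool.Agent.H23.APTest.no_scheme C D k N hk

end Pool.Agent.Results.MP_8aa41f_lc.EveryFixedK
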